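import Mathlib
import Pool.Agent.Y640.FM.Hard
import Pool.Agent.Y640.FM.Upper

set_option autoImplicit false

/-!
# Fourier submatrices with random row sets need exactly `2 m ^ 2 - m` operations

The model (`Pool/Agent/H683R2/FourierDefs.lean`) is that of algebraic computation trees over the
complex numbers: `Alg` is a family of programs `A m d R C`, which may depend in an arbitrary way on
`m`, `d`, on the row set `R` and on the column set `C`; a program may use arbitrary complex constants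
(for instance roots of unity) and arbitrary tests free of charge; only the additions, subtractions,
multiplications and divisions of complex numbers are counted (`Prog.ops`). The row set `R` is
uniformly random among the `m`-element subsets of `ℤ_d`, the column set `C` and the vector `v` are
worst case, but do not depend on `R`.
-/

namespace Pool.Agent.Results.MP_a662a5_lc.RandomRows

open Finset Pool.Agent.H683R2.FS Pool.Agent.Y640.FM

open Classical in
/-- The `m`-element subsets of `ℤ_d`, given by their increasing enumerations. -/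
noncomputable def sets (m d : ℕ) : Finset (Fin m → Fin d) := univ.filter StrictMono

/-- The expected number of arithmetic operations which the algorithm `A` executes for the column set
`C` and the vector `v`, if the row set is uniformly random. -/
noncomputable def meanOps (A : Alg) {m d : ℕ} (C : Fin m → Fin d) (v : Fin m → ℂ) : ℝ :=
  (∑ R ∈ sets m d, ((A m d R C).ops v : ℝ)) / (sets m d).card

open Classical in
/-- The probability that the algorithm `A` executes more than `t` arithmetic operations for the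
column set `C` and the vector `v`, if the row set is uniformly random. -/
noncomputable def tailOps (A : Alg) {m d : ℕ} (C : Fin m → Fin d) (v : Fin m → ℂ) (t : ℝ) : ℝ :=
  (((sets m d).filter (fun R => t < ((A m d R C).ops v : ℝ))).card : ℝ) / (sets m d).card

lemma mem_sets {m d : ℕ} {R : Fin m → Fin d} : R ∈ sets m d ↔ StrictMono R := by
  unfold sets
  simp

lemma choose_le_card (m d : ℕ) : d.choose m ≤ (sets m d).card := by
  classical
  have h : (powersetCard m (univ : Finset (Fin d))).card = d.choose m := by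
    rw [card_powersetCard, card_univ, Fintype.card_fin]
  rw [← h]
  refine card_le_card_of_surjOn (fun R => univ.image R) ?_
  intro s hs
  have hs' : s ⊆ univ ∧ s.card = m := by
    have := mem_powersetCard.1 (Finset.mem_coe.1 hs)
    exact this
  refine ⟨s.orderEmbOfFin hs'.2, ?_, ?_⟩
  · rw [Finset.mem_coe, mem_sets]
    exact (s.orderEmbOfFin hs'.2).strictMono
  · ext x
    simp only [mem_image, mem_univ, true_and]
    have h2 := Finset.range_orderEmbOfFin s hs'.2
    constructor
    · rintro ⟨a, rfl⟩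
      exact Finset.orderEmbOfFin_mem s hs'.2 a
    · intro hx
      have h3 : x ∈ Set.range (s.orderEmbOfFin hs'.2) := by rw [h2]; exact hx
      exact h3

lemma pow_le_card {m d : ℕ} (hd : 2 * m ≤ d) :
    d ^ m ≤ 2 ^ m * m.factorial * (sets m d).card := by
  have h1 : (d + 1 - m) ^ m ≤ m.factorial * d.choose m := by
    have := Nat.pow_sub_le_descFactorial d m
    rw [Nat.descFactorial_eq_factorial_mul_choose] at this
    exact this
  have h2 : d ≤ 2 * (d + 1 - m) := by omega
  calc d ^ m ≤ (2 * (d + 1 - m)) ^ m := Nat.pow_le_pow_left h2 m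
    _ = 2 ^ m * (d + 1 - m) ^ m := by rw [mul_pow]
    _ ≤ 2 ^ m * (m.factorial * d.choose m) := Nat.mul_le_mul_left _ h1
    _ ≤ 2 ^ m * (m.factorial * (sets m d).card) :=
        Nat.mul_le_mul_left _ (Nat.mul_le_mul_left _ (choose_le_card m d))
    _ = _ := by ring

lemma sets_pos {m d : ℕ} (hd : m ≤ d) : 0 < (sets m d).card :=
  lt_of_lt_of_le (Nat.choose_pos hd) (choose_le_card m d)

open Classical in
/-- For large primes `d` most column sets are hard for most row sets. -/
lemma most (m : ℕ) (η : ℝ) (hη : 0 < η) : ∃ D : ℕ, ∀ d : ℕ, d.Prime → D ≤ d →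
    (1 - η) * (sets m d).card ≤ (((sets m d).filter fun C =>
      (1 - η) * (sets m d).card ≤
        (((sets m d).filter fun R => Needs (2 * m ^ 2 - m) R C).card : ℝ)).card : ℝ) := by
  rcases Nat.eq_zero_or_pos m with rfl | hm
  · refine ⟨0, fun d _ _ => ?_⟩
    have h1 : ∀ R C : Fin 0 → Fin d, Needs (2 * 0 ^ 2 - 0) R C := fun R C => needs_zero R C
    have h2 : (sets 0 d).filter (fun C => (1 - η) * ((sets 0 d).card : ℝ) ≤
        (((sets 0 d).filter fun R => Needs (2 * 0 ^ 2 - 0) R C).card : ℝ)) = sets 0 d := by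
      apply filter_true_of_mem
      intro C _
      rw [filter_true_of_mem (fun R _ => h1 R C)]
      nlinarith [Nat.cast_nonneg (α := ℝ) (sets 0 d).card]
    rw [h2]
    nlinarith [Nat.cast_nonneg (α := ℝ) (sets 0 d).card]
  obtain ⟨K, hK⟩ : ∃ K : ℝ, K = 2 ^ (40 * m ^ 6) * (2 ^ m * m.factorial) ^ 2 := ⟨_, rfl⟩
  have hK0 : 0 < K := by rw [hK]; positivity
  refine ⟨max (2 * m) ⌈K / η ^ 2⌉₊, fun d hdp hd => ?_⟩
  have hd1 : 2 * m ≤ d := (le_max_left _ _).trans hd
  have hd2 : K / η ^ 2 ≤ d := (Nat.le_ceil _).trans (by exact_mod_cast (le_max_right _ _).trans hd)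
  obtain ⟨N, hN⟩ : ∃ N : ℝ, N = (sets m d).card := ⟨_, rfl⟩
  have hN0 : 0 < N := by
    rw [hN]; exact_mod_cast sets_pos (by omega : m ≤ d)
  have hd0 : (0 : ℝ) < d := by exact_mod_cast hdp.pos
  -- the number of easy pairs
  have hcard := card_A (le_refl m) hdp (m := m)
  set E : Finset ((Fin m → Fin d) × (Fin m → Fin d)) := (sets m d ×ˢ sets m d).filter
    (fun p => ¬ Needs (2 * m ^ 2 - m) p.1 p.2) with hE
  have hEc : (E.card : ℝ) ≤ η ^ 2 * N ^ 2 := by
    have h1 : (easyPairs (2 * m ^ 2 - m) m d).ncard = E.card := by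
      rw [← Set.ncard_coe_finset]
      congr 1
      ext p
      rw [hE, Finset.mem_coe, mem_filter, mem_product, mem_sets, mem_sets]
      simp only [easyPairs, Set.mem_ofPred_eq, and_assoc]
    rw [h1] at hcard
    have h2 : (E.card : ℝ) * d ≤ 2 ^ (40 * m ^ 6) * ((d : ℝ) ^ m) ^ 2 := by
      have h3 : d ^ (2 * m - 1) * d = (d ^ m) ^ 2 := by
        rw [← pow_succ, ← pow_mul]
        congr 1
        omega
      have h4 : E.card * d ≤ 2 ^ (40 * m ^ 6) * (d ^ m) ^ 2 := by
        calc E.card * d ≤ 2 ^ (40 * m ^ 6) * d ^ (2 * m - 1) * d := Nat.mul_le_mul_right _ hcard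
          _ = 2 ^ (40 * m ^ 6) * (d ^ (2 * m - 1) * d) := by ring
          _ = _ := by rw [h3]
      exact_mod_cast h4
    have h5 : (d : ℝ) ^ m ≤ 2 ^ m * m.factorial * N := by
      rw [hN]; exact_mod_cast pow_le_card hd1
    have h6 : (E.card : ℝ) * d ≤ K * N ^ 2 := by
      calc (E.card : ℝ) * d ≤ 2 ^ (40 * m ^ 6) * ((d : ℝ) ^ m) ^ 2 := h2
        _ ≤ 2 ^ (40 * m ^ 6) * (2 ^ m * m.factorial * N) ^ 2 := by gcongr
        _ = K * N ^ 2 := by rw [hK]; ring
    have h7 : K ≤ η ^ 2 * d := by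
      rw [div_le_iff₀ (by positivity)] at hd2
      linarith
    have h8 : (E.card : ℝ) * d ≤ (η ^ 2 * N ^ 2) * d := by
      calc _ ≤ K * N ^ 2 := h6
        _ ≤ (η ^ 2 * d) * N ^ 2 := by gcongr
        _ = _ := by ring
    exact le_of_mul_le_mul_right h8 hd0
  -- Markov
  set B := (sets m d).filter (fun C => ¬ ((1 - η) * N ≤
        (((sets m d).filter fun R => Needs (2 * m ^ 2 - m) R C).card : ℝ))) with hB
  have hBE : η * N * B.card ≤ E.card := by
    have h1 : E.card = ∑ C ∈ sets m d,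
        ((sets m d).filter fun R => ¬ Needs (2 * m ^ 2 - m) R C).card := by
      rw [hE, Finset.card_filter, Finset.sum_product_right]
      refine Finset.sum_congr rfl fun C _ => ?_
      rw [Finset.card_filter]
    have h2 : ∀ C ∈ B, η * N ≤
        (((sets m d).filter fun R => ¬ Needs (2 * m ^ 2 - m) R C).card : ℝ) := by
      intro C hC
      rw [hB, mem_filter] at hC
      have h3 := hC.2
      push Not at h3
      have h4 : ((sets m d).filter fun R => Needs (2 * m ^ 2 - m) R C).card +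
          ((sets m d).filter fun R => ¬ Needs (2 * m ^ 2 - m) R C).card = (sets m d).card :=
        Finset.card_filter_add_card_filter_not _
      have h5 : (((sets m d).filter fun R => Needs (2 * m ^ 2 - m) R C).card : ℝ) +
          (((sets m d).filter fun R => ¬ Needs (2 * m ^ 2 - m) R C).card : ℝ) = N := by
        rw [hN]; exact_mod_cast h4
      linarith
    calc η * N * B.card = ∑ C ∈ B, η * N := by rw [sum_const, nsmul_eq_mul]; ring
      _ ≤ ∑ C ∈ B, (((sets m d).filter fun R => ¬ Needs (2 * m ^ 2 - m) R C).card : ℝ) :=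
          Finset.sum_le_sum h2
      _ ≤ ∑ C ∈ sets m d, (((sets m d).filter fun R => ¬ Needs (2 * m ^ 2 - m) R C).card : ℝ) := by
          apply Finset.sum_le_sum_of_subset_of_nonneg (filter_subset _ _)
          intro _ _ _
          positivity
      _ = E.card := by rw [h1]; push_cast; rfl
  have hBc : (B.card : ℝ) ≤ η * N := by
    have h1 : η * N * B.card ≤ η * N * (η * N) := by
      calc η * N * B.card ≤ E.card := hBE
        _ ≤ η ^ 2 * N ^ 2 := hEc
        _ = _ := by ring
    exact le_of_mul_le_mul_left h1 (by positivity)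
  have h4 : ((sets m d).filter (fun C => (1 - η) * N ≤
        (((sets m d).filter fun R => Needs (2 * m ^ 2 - m) R C).card : ℝ))).card +
      B.card = (sets m d).card := by
    rw [hB]
    exact Finset.card_filter_add_card_filter_not _
  have h5 : (((sets m d).filter (fun C => (1 - η) * N ≤
        (((sets m d).filter fun R => Needs (2 * m ^ 2 - m) R C).card : ℝ))).card : ℝ) +
      B.card = N := by
    rw [hN] at h4 ⊢
    exact_mod_cast h4
  rw [← hN]
  linarith

/-- Countably many conditions on vectors can be satisfied at the same time. -/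
lemma almostAll_all {m : ℕ} {ι : Type} [Countable ι] {p : ι → (Fin m → ℂ) → Prop}
    (h : ∀ i, AlmostAll (p i)) : AlmostAll fun v => ∀ i, p i v := by
  choose Z hZ hZ0 hZv using h
  refine ⟨⋃ i, Z i, Set.countable_iUnion hZ, ?_, fun v hv i => hZv i v fun z hz => ?_⟩
  · intro h0
    obtain ⟨i, hi⟩ := Set.mem_iUnion.1 h0
    exact hZ0 i hi
  · exact hv z (Set.mem_iUnion.2 ⟨i, hz⟩)

open Classical in
/-- One vector is hard for all hard pairs and all members of a finite family of algorithms. -/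
lemma exists_vec {m d : ℕ} {Ω : Type} [Countable Ω] (A : Ω → Alg) (C : Fin m → Fin d) (L : ℕ) :
    ∃ v : Fin m → ℂ, ∀ (ω : Ω) (R : Fin m → Fin d), Needs L R C →
      (A ω m d R C).run v = fourierProd R C v → L ≤ (A ω m d R C).ops v := by
  have h : AlmostAll fun v : Fin m → ℂ => ∀ q : Ω × {R : Fin m → Fin d // Needs L R C},
      (A q.1 m d q.2.1 C).run v = fourierProd q.2.1 C v → L ≤ (A q.1 m d q.2.1 C).ops v :=
    almostAll_all fun q => q.2.2 (A q.1 m d q.2.1 C)
  obtain ⟨v, hv⟩ := h.exists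
  exact ⟨v, fun ω R hR => hv (ω, ⟨R, hR⟩)⟩

lemma cast_count (m : ℕ) : ((2 * m ^ 2 - m : ℕ) : ℝ) = 2 * (m : ℝ) ^ 2 - m := by
  have h : m ≤ 2 * m ^ 2 := by nlinarith [Nat.le_self_pow (two_ne_zero) m]
  rw [Nat.cast_sub h]
  push_cast
  ring

open Classical in
/-- There is a hard column set. -/
lemma exists_col (m : ℕ) (η : ℝ) (hη : 0 < η) : ∃ D : ℕ, ∀ d : ℕ, d.Prime → D ≤ d →
    m ≤ d ∧ ∃ C ∈ sets m d, (1 - η) * (sets m d).card ≤
        (((sets m d).filter fun R => Needs (2 * m ^ 2 - m) R C).card : ℝ) := by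
  obtain ⟨D, hD⟩ := most m (min η (1 / 2)) (lt_min hη (by norm_num))
  refine ⟨max D m, fun d hdp hd => ?_⟩
  have hmd : m ≤ d := (le_max_right _ _).trans hd
  have h1 := hD d hdp ((le_max_left _ _).trans hd)
  have hN0 : (0 : ℝ) < (sets m d).card := by exact_mod_cast sets_pos hmd
  have h2 : (0 : ℝ) < (1 - min η (1 / 2)) * (sets m d).card := by
    have : min η (1 / 2) ≤ 1 / 2 := min_le_right _ _
    apply mul_pos (by linarith) hN0
  have h3 := lt_of_lt_of_le h2 h1
  have h4 : 0 < ((sets m d).filter fun C => (1 - min η (1 / 2)) * (sets m d).card ≤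
        (((sets m d).filter fun R => Needs (2 * m ^ 2 - m) R C).card : ℝ)).card := by
    exact_mod_cast h3
  obtain ⟨C, hC⟩ := card_pos.1 h4
  rw [mem_filter] at hC
  refine ⟨hmd, C, hC.1, le_trans ?_ hC.2⟩
  apply mul_le_mul_of_nonneg_right _ hN0.le
  linarith [min_le_left η (1 / 2)]

open Classical in
theorem rand (m : ℕ) (η δ : ℝ) (hη : 0 < η) (hδ : δ ≤ 1) : ∃ D : ℕ, ∀ d : ℕ, d.Prime → D ≤ d →
      ∀ (Ω : Type) [Fintype Ω] (p : Ω → ℝ), (∀ ω, 0 ≤ p ω) → ∑ ω, p ω = 1 → ∀ A : Ω → Alg,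
      (∀ R ∈ sets m d, ∀ C ∈ sets m d, ∀ v : Fin m → ℂ,
        1 - δ ≤ ∑ ω with (A ω m d R C).run v = fourierProd R C v, p ω) →
      ∃ C ∈ sets m d, ∃ v : Fin m → ℂ,
        (1 - δ) * (1 - η) * (2 * (m : ℝ) ^ 2 - m) ≤ ∑ ω, p ω * meanOps (A ω) C v := by
  obtain ⟨D, hD⟩ := exists_col m η hη
  refine ⟨D, fun d hdp hd Ω _ p hp hp1 A hA => ?_⟩
  obtain ⟨hmd, C, hC, hCN⟩ := hD d hdp hd
  obtain ⟨v, hv⟩ := exists_vec A C (2 * m ^ 2 - m)
  refine ⟨C, hC, v, ?_⟩
  have hN0 : (0 : ℝ) < (sets m d).card := by exact_mod_cast sets_pos hmd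
  have hL0 : (0 : ℝ) ≤ 2 * (m : ℝ) ^ 2 - m := by rw [← cast_count]; positivity
  -- the expected cost for one hard row set
  have h1 : ∀ R ∈ (sets m d).filter (fun R => Needs (2 * m ^ 2 - m) R C),
      (1 - δ) * (2 * (m : ℝ) ^ 2 - m) ≤ ∑ ω, p ω * ((A ω m d R C).ops v : ℝ) := by
    intro R hR
    rw [mem_filter] at hR
    calc (1 - δ) * (2 * (m : ℝ) ^ 2 - m) ≤
        (∑ ω with (A ω m d R C).run v = fourierProd R C v, p ω) * (2 * (m : ℝ) ^ 2 - m) :=
          mul_le_mul_of_nonneg_right (hA R hR.1 C hC v) hL0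
      _ = ∑ ω with (A ω m d R C).run v = fourierProd R C v, p ω * (2 * (m : ℝ) ^ 2 - m) := by
          rw [sum_mul]
      _ ≤ ∑ ω with (A ω m d R C).run v = fourierProd R C v, p ω * ((A ω m d R C).ops v : ℝ) := by
          apply Finset.sum_le_sum
          intro ω hω
          apply mul_le_mul_of_nonneg_left _ (hp ω)
          rw [← cast_count]
          exact_mod_cast hv ω R hR.2 (mem_filter.1 hω).2
      _ ≤ ∑ ω, p ω * ((A ω m d R C).ops v : ℝ) := by
          apply Finset.sum_le_sum_of_subset_of_nonneg (filter_subset _ _)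
          intro ω _ _
          exact mul_nonneg (hp ω) (Nat.cast_nonneg _)
  have h2 : ∑ ω, p ω * meanOps (A ω) C v =
      (∑ R ∈ sets m d, ∑ ω, p ω * ((A ω m d R C).ops v : ℝ)) / (sets m d).card := by
    unfold meanOps
    rw [Finset.sum_comm, Finset.sum_div]
    refine Finset.sum_congr rfl fun ω _ => ?_
    rw [← Finset.mul_sum, mul_div_assoc]
  rw [h2, le_div_iff₀ hN0]
  calc (1 - δ) * (1 - η) * (2 * (m : ℝ) ^ 2 - m) * (sets m d).card =
      (1 - δ) * (2 * (m : ℝ) ^ 2 - m) * ((1 - η) * (sets m d).card) := by ring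
    _ ≤ (1 - δ) * (2 * (m : ℝ) ^ 2 - m) *
        (((sets m d).filter fun R => Needs (2 * m ^ 2 - m) R C).card : ℝ) := by
        apply mul_le_mul_of_nonneg_left hCN
        exact mul_nonneg (by linarith) hL0
    _ = ∑ R ∈ (sets m d).filter (fun R => Needs (2 * m ^ 2 - m) R C),
        (1 - δ) * (2 * (m : ℝ) ^ 2 - m) := by
        rw [sum_const, nsmul_eq_mul]; ring
    _ ≤ ∑ R ∈ (sets m d).filter (fun R => Needs (2 * m ^ 2 - m) R C),
        ∑ ω, p ω * ((A ω m d R C).ops v : ℝ) := Finset.sum_le_sum h1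
    _ ≤ _ := by
        apply Finset.sum_le_sum_of_subset_of_nonneg (filter_subset _ _)
        intro R _ _
        exact Finset.sum_nonneg fun ω _ => mul_nonneg (hp ω) (Nat.cast_nonneg _)

theorem det (A : Alg) (hA : A.Correct) (m : ℕ) (η : ℝ) (hη : 0 < η) :
    ∃ D : ℕ, ∀ d : ℕ, d.Prime → D ≤ d → ∃ C ∈ sets m d, ∃ v : Fin m → ℂ,
      (1 - η) * (2 * (m : ℝ) ^ 2 - m) ≤ meanOps A C v ∧
        ∀ t : ℝ, t < 2 * (m : ℝ) ^ 2 - m → 1 - η ≤ tailOps A C v t := by
  classical
  obtain ⟨D, hD⟩ := exists_col m η hη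
  refine ⟨D, fun d hdp hd => ?_⟩
  obtain ⟨hmd, C, hC, hCN⟩ := hD d hdp hd
  obtain ⟨v, hv⟩ := exists_vec (fun _ : Unit => A) C (2 * m ^ 2 - m)
  have hN0 : (0 : ℝ) < (sets m d).card := by exact_mod_cast sets_pos hmd
  have hL0 : (0 : ℝ) ≤ 2 * (m : ℝ) ^ 2 - m := by rw [← cast_count]; positivity
  have h1 : ∀ R ∈ (sets m d).filter (fun R => Needs (2 * m ^ 2 - m) R C),
      2 * (m : ℝ) ^ 2 - m ≤ ((A m d R C).ops v : ℝ) := by
    intro R hR
    rw [mem_filter] at hR
    rw [← cast_count]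
    exact_mod_cast hv () R hR.2 (hA m d R C (mem_sets.1 hR.1) (mem_sets.1 hC) v)
  refine ⟨C, hC, v, ?_, fun t ht => ?_⟩
  · unfold meanOps
    rw [le_div_iff₀ hN0]
    calc (1 - η) * (2 * (m : ℝ) ^ 2 - m) * (sets m d).card =
        (2 * (m : ℝ) ^ 2 - m) * ((1 - η) * (sets m d).card) := by ring
      _ ≤ (2 * (m : ℝ) ^ 2 - m) *
          (((sets m d).filter fun R => Needs (2 * m ^ 2 - m) R C).card : ℝ) :=
          mul_le_mul_of_nonneg_left hCN hL0
      _ = ∑ R ∈ (sets m d).filter (fun R => Needs (2 * m ^ 2 - m) R C),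
          (2 * (m : ℝ) ^ 2 - m) := by rw [sum_const, nsmul_eq_mul]; ring
      _ ≤ ∑ R ∈ (sets m d).filter (fun R => Needs (2 * m ^ 2 - m) R C),
          ((A m d R C).ops v : ℝ) := Finset.sum_le_sum h1
      _ ≤ _ := by
          apply Finset.sum_le_sum_of_subset_of_nonneg (filter_subset _ _)
          intro R _ _
          exact Nat.cast_nonneg _
  · unfold tailOps
    rw [le_div_iff₀ hN0]
    refine hCN.trans ?_
    have h2 : ((sets m d).filter fun R => Needs (2 * m ^ 2 - m) R C) ⊆
        ((sets m d).filter fun R => t < ((A m d R C).ops v : ℝ)) := by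
      intro R hR
      rw [mem_filter]
      exact ⟨(mem_filter.1 hR).1, lt_of_lt_of_le ht (h1 R hR)⟩
    exact_mod_cast card_le_card h2

open Classical in
/-- (1) For every `m` and `η > 0` and all large primes `d` the following holds for all but at most
a fraction `η` of the column sets `C`: for all but at most a fraction `η` of the row sets `R`, every
program needs at least `2 m ^ 2 - m` arithmetic operations for the product with almost every vector
(`Needs`).
(2) For randomized algorithms with error probability at most `δ` on each input there are `C` and `v`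
such that the expected number of operations, over the random row set and the randomness of the
algorithm, is at least `(1 - δ) (1 - η) (2 m ^ 2 - m)`.
(3) For a correct algorithm there are `C` and `v` such that the expected number of operations is at
least `(1 - η) (2 m ^ 2 - m)`, and at least `2 m ^ 2 - m` operations are executed with probability at
least `1 - η`.
(4), (5) So the answer to both versions of the question is negative.
(6) The direct algorithm executes at most `2 m ^ 2 - m` operations on every input. -/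
theorem result :
    (∀ (m : ℕ) (η : ℝ), 0 < η → ∃ D : ℕ, ∀ d : ℕ, d.Prime → D ≤ d →
      (1 - η) * (sets m d).card ≤ (((sets m d).filter fun C =>
        (1 - η) * (sets m d).card ≤
          (((sets m d).filter fun R => Needs (2 * m ^ 2 - m) R C).card : ℝ)).card : ℝ)) ∧
    (∀ (m : ℕ) (η δ : ℝ), 0 < η → δ ≤ 1 → ∃ D : ℕ, ∀ d : ℕ, d.Prime → D ≤ d →
      ∀ (Ω : Type) [Fintype Ω] (p : Ω → ℝ), (∀ ω, 0 ≤ p ω) → ∑ ω, p ω = 1 → ∀ A : Ω → Alg,
      (∀ R ∈ sets m d, ∀ C ∈ sets m d, ∀ v : Fin m → ℂ,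
        1 - δ ≤ ∑ ω with (A ω m d R C).run v = fourierProd R C v, p ω) →
      ∃ C ∈ sets m d, ∃ v : Fin m → ℂ,
        (1 - δ) * (1 - η) * (2 * (m : ℝ) ^ 2 - m) ≤ ∑ ω, p ω * meanOps (A ω) C v) ∧
    (∀ A : Alg, A.Correct → ∀ (m : ℕ) (η : ℝ), 0 < η →
      ∃ D : ℕ, ∀ d : ℕ, d.Prime → D ≤ d → ∃ C ∈ sets m d, ∃ v : Fin m → ℂ,
        (1 - η) * (2 * (m : ℝ) ^ 2 - m) ≤ meanOps A C v ∧
          ∀ t : ℝ, t < 2 * (m : ℝ) ^ 2 - m → 1 - η ≤ tailOps A C v t) ∧
    (¬ ∃ (A : Alg) (T : ℕ → ℝ), A.Correct ∧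
      (∀ m d : ℕ, m ≤ d → ∀ C ∈ sets m d, ∀ v : Fin m → ℂ, meanOps A C v ≤ T m) ∧
      T =o[Filter.atTop] (fun m => (m : ℝ) ^ 2)) ∧
    (¬ ∃ (A : Alg) (T e : ℕ → ℝ), A.Correct ∧
      (∀ m d : ℕ, m ≤ d → ∀ C ∈ sets m d, ∀ v : Fin m → ℂ, tailOps A C v (T m) ≤ e m) ∧
      T =o[Filter.atTop] (fun m => (m : ℝ) ^ 2) ∧ Filter.Tendsto e Filter.atTop (nhds 0)) ∧
    (∃ A : Alg, A.Correct ∧ ∀ (m d : ℕ) (R C : Fin m → Fin d) (v : Fin m → ℂ),
      (A m d R C).ops v ≤ 2 * m ^ 2 - m) := by
  have hprime : ∀ D m : ℕ, ∃ d : ℕ, d.Prime ∧ D ≤ d ∧ m ≤ d := by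
    intro D m
    obtain ⟨d, h1, h2⟩ := Nat.exists_infinite_primes (max D m)
    exact ⟨d, h2, (le_max_left _ _).trans h1, (le_max_right _ _).trans h1⟩
  refine ⟨most, rand, det, ?_, ?_, ⟨direct, fun m d R C _ _ v => (direct_spec R C v).1,
    fun m d R C v => ?_⟩⟩
  · rintro ⟨A, T, hA, hT, ho⟩
    rw [Asymptotics.isLittleO_iff] at ho
    have h1 := ho (c := 1 / 4) (by norm_num)
    obtain ⟨m, hm, h2⟩ := (h1.and (Filter.eventually_ge_atTop 1)).exists
    obtain ⟨D, hD⟩ := det A hA m (1 / 2) (by norm_num)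
    obtain ⟨d, hdp, hDd, hmd⟩ := hprime D m
    obtain ⟨C, hC, v, hv, -⟩ := hD d hdp hDd
    have h3 := hv.trans (hT m d hmd C hC v)
    have h4 : (1 : ℝ) ≤ m := by exact_mod_cast h2
    rw [Real.norm_of_nonneg (by positivity : (0 : ℝ) ≤ (m : ℝ) ^ 2)] at hm
    have h5 := le_trans (le_abs_self (T m)) hm
    nlinarith
  · rintro ⟨A, T, e, hA, hT, ho, he⟩
    rw [Asymptotics.isLittleO_iff] at ho
    have h1 := ho (c := 1 / 4) (by norm_num)
    have h0 := he.eventually (gt_mem_nhds (by norm_num : (0 : ℝ) < 1 / 4))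
    obtain ⟨m, ⟨hm, hem⟩, h2⟩ := ((h1.and h0).and (Filter.eventually_ge_atTop 1)).exists
    obtain ⟨D, hD⟩ := det A hA m (1 / 2) (by norm_num)
    obtain ⟨d, hdp, hDd, hmd⟩ := hprime D m
    obtain ⟨C, hC, v, -, hv⟩ := hD d hdp hDd
    have h4 : (1 : ℝ) ≤ m := by exact_mod_cast h2
    rw [Real.norm_of_nonneg (by positivity : (0 : ℝ) ≤ (m : ℝ) ^ 2)] at hm
    have h5 := le_trans (le_abs_self (T m)) hm
    have h6 := (hv (T m) (by nlinarith)).trans (hT m d hmd C hC v)
    linarith
  · have := (direct_spec R C v).2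
    omega

end Pool.Agent.Results.MP_a662a5_lc.RandomRows
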